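import Pool.Agent.H20.RD.Bnd
import Pool.Agent.H20.RG.Conv2

/-!
# Approximations of bounded degree exist only for toric varieties

Let `X` be a closed subset of projective space of dimension at most `d` over an algebraically closed
perfectoid field `K` of characteristic `0`. The preimages under `π` of arbitrarily small neighbourhoods of
`X` contain closed algebraic subsets of dimension at least `d` which are defined by forms of bounded degree if
and only if `X` contains a toric subvariety of dimension at least `d`; for irreducible `X` this means that `X`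
itself is toric.
-/

namespace Pool.Agent.Results.MP_db3ab1_ag.BoundedDegreeAllDimensions

open MvPolynomial Pool.Agent.Y129.TA Pool.Agent.H20.RG Pool.Agent.H20.RD
open Pool.Agent.K7.H6.PT (IsIrr)

theorem result (p : ℕ) [Fact p.Prime] (K F : Type) [Field K] [Field F] [CharP F p]
    [IsAlgClosed K] [IsAlgClosed F] (T : Tilting p K F) (n d : ℕ) (X : Set (Fin (n + 1) → K))
    (hX : IsClosedCone X) (hd : DimLE X d) :
    (ApproxBounded T.toTiltPair X d ↔ ∃ W ⊆ X, IsIrr W ∧ IsToric W ∧ DimGE W d) ∧
    (IsIrr X → (ApproxBounded T.toTiltPair X d ↔ IsToric X ∧ DimGE X d)) := by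
  have key : (∃ W ⊆ X, IsIrr W ∧ IsToric W ∧ DimGE W d) → ApproxBounded T.toTiltPair X d := by
    rintro ⟨W, hWX, h1, h2, h3⟩
    obtain ⟨Y, hY, hYd, hYW⟩ := backward T h1 h2 h3
    have hne : Y.Nonempty := Pool.Agent.R388.TP.dimGE_nonempty hYd
    obtain ⟨r, g, hg, hYg⟩ := Pool.Agent.R388.TP.exists_gens (k := F) (L := F) (X := Y) hY hne
    choose D hD hgD using hg
    refine ⟨∑ l, D l, fun s P E _ hPX ε hε => ⟨Y, ⟨Set.range g, ?_, ?_⟩, hYd, ?_⟩⟩
    · rintro _ ⟨l, rfl⟩
      exact ⟨D l, hD l, Finset.single_le_sum (f := D) (fun _ _ => Nat.zero_le _)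
        (Finset.mem_univ l), hgD l⟩
    · rw [hYg]
      ext y
      simp only [Set.mem_ofPred_eq, Set.forall_mem_range, aeval_eq_eval]
    · intro y hy k B hB
      have hB0 : 0 ≤ B := (T.absF.nonneg _).trans (hB 0)
      rw [hPX k _ (hWX (hYW y hy)), map_zero]
      positivity
  refine ⟨⟨?_, key⟩, fun hirr => ⟨?_, ?_⟩⟩
  · intro h
    obtain ⟨W, hWX, h1, h2, h3, -⟩ := toric_of_approxBounded T hX hd h
    exact ⟨W, hWX, h1, h2, h3⟩
  · intro h
    obtain ⟨W, -, -, h2, h3, h4⟩ := toric_of_approxBounded T hX hd h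
    have h5 := h4 hirr
    rw [h5] at h2 h3
    exact ⟨h2, h3⟩
  · rintro ⟨h2, h3⟩
    exact key ⟨X, subset_rfl, hirr, h2, h3⟩

end Pool.Agent.Results.MP_db3ab1_ag.BoundedDegreeAllDimensions
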