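import Pool.Agent.H20.HE.BasisG
import Pool.Agent.H20.HE.Form
import Pool.Agent.H20.HE.MainM
import Pool.Agent.H97.HE.LimitM

/-!
# Q1 for all curves on rational scrolls, in particular for hyperelliptic curves in all embeddings

Let `K` be a perfectoid field of characteristic `0` and residue characteristic `p`, `E = K♭` its tilt, `C`
the completion of an algebraic closure of `K`, and `F = C♭` its tilt, which contains `E`. The structures
`Tilting p C F` and `BaseField T K E` of the starting files consist of the absolute values, of the map
`x ↦ x♯` from `F` to `C`, of the map `θ` of Fontaine from `W(O_F)` to `O_C`, and of the well-known facts
that `θ` is surjective on `W(O_F)` and maps `W(O_E)` onto `O_K`, that `E` is perfect and contains an element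
of absolute value `|p|`. Every perfectoid field `K` of characteristic `0` gives such data (for `K`
algebraically closed take `C = K`, `F = E`), and nothing else about perfectoid fields is used.

Closed subsets of `ℙ^n` are given by their cones: `IsConeOver K X` says that `X` is the zero set in `C^{n+1}`
of an ideal of polynomials over `K` and stable under scalars; `DimLEOver K X 1` says that the dimension of
`X` is at most `1` (some two forms over `K` have no common nonzero zero on `X`); `Approximable T K E X 1` is
Q1 for the curve `X`: for all homogeneous `P 1, ..., P r` over `K` of degrees `D 1, ..., D r` which vanish on
`X` and all `ε > 0` there is a closed `Y` of dimension `1` in `ℙ^n_E`, defined over `E`, such that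
`|P k (y♯)| ≤ ε ‖y‖ ^ D k` for all points `y` of `Y` over `F` and all `k`.

Theorem. Let `a_i`, `b_i` (`0 ≤ i ≤ n`) be polynomials over `K` in one variable such that the vectors `(a_i)`
and `(b_i)` are not proportional. So the points `a(x) + y b(x)` form a surface in `ℙ^n` which is swept
out by the lines through `a(x)` and `b(x)` (or a line, if all these lines are equal). Let `P(x, y)` be a
polynomial over `K` which is irreducible over `C` and of degree at least two in `y`. Let `X` be a closed
subset of `ℙ^n` defined over `K`, of dimension at most `1`, which contains the points `a(x) + y b(x)` with
`P(x, y) = 0`. Then Q1 holds for `X`.

(For degree `0` in `y` the curve would be one of the lines, and for degree `1` a rational curve; for these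
Q1 is contained in the starting files.)

Examples (not part of the formal statement).

* `P = y ^ 2 - h(x)` with `h` not a square over `C`: let `X` be a geometrically integral curve over `K`,
  singularities allowed, the function field of which is a quadratic extension of a field `K(x)` of
  rational functions. The coordinates of its generic point can be written as `a_i(x) + y b_i(x)`. So Q1
  holds for all curves of geometric genus `2`, all elliptic curves, and all hyperelliptic curves with
  quotient `ℙ^1` over `K`, in every embedding in `ℙ^n` over `K` (all very ample line bundles, all linear
  systems), and for all images of these curves.
* Over an algebraically closed `K` the theorem contains Q1 for all irreducible curves of positive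
  geometric genus in `ℙ^n` which lie on a surface swept out by a rational family of lines, for instance
  on a rational normal scroll (or on its linear projections, or on cones over rational curves): the
  trigonal canonical curves of every genus, and, by the theorem of Castelnuovo, all curves of maximal
  genus for their degree `d ≥ 2n + 1` in `ℙ^n`, `n ≠ 5`.

Relation to the starting files. `MultiprojectiveImages` proves Q1 for the images of complete
intersections in products of projective spaces under maps given by multihomogeneous forms without
common zeros, and `ToricSectionsAndStability`, `JoinsAndCoverings` and so on other constructions with
complete intersections. Here the curve, its line bundle and the linear system are arbitrary, and no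
model is given: the theorem constructs one. A line bundle on a hyperelliptic curve is in general not
the restriction of a line bundle of a fixed ambient space in which the curve is a complete
intersection.

Proof. Let `M` be the module of the vectors of polynomials in the span of `a` and `b` over `K(x)`. It
contains two vectors `a'`, `b'` of degrees `β + e ≥ β` with the same span, the values of which are
independent at every point `x` over `C` and at infinity (`basisG`, by minimality of the degrees). In the
coordinates `u a'(x) + v b'(x)` the curve is given by a form of degree `m` in `u`, `v` over `K[x]`, which we
divide by its content (`form`). Then its zero set contains no line `x = const`, so that all its points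
over the finitely many exceptional values of `x`, also over infinity, are limits of points over general
`x` (`limitM`, continuity of roots over `C`) and hence lie on `X`. The ruled surface is embedded in
`ℙ^1 × ℙ^{e+1}` with the coordinates `(s, t)` and `(v, u s^e, u s^{e-1} t, ..., u t^e)`, where it is given by
the `e` equations `t u_k = s u_{k+1}` of bidegree `(1, 1)`; the form of degree `m` becomes an equation of
bidegree `(c, m)` with `c ≥ 0`, because the curve does not contain the directrix, by Gauss's lemma; and the
map to `ℙ^n` is given by forms of bidegree `(β, 1)`, without common zeros on the whole scroll. So the
theorem on images of complete intersections in products of projective spaces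
(`Pool.Agent.X271.TN.main`) can be applied. Its condition on the positivity holds for `e > 0`, for `β > 0`
and for `c > 0`, and `e = β = c = 0` is impossible, since then the form would have constant coefficients
and split into linear factors over `C`.
-/

set_option autoImplicit false

namespace Pool.Agent.Results.MP_db3ab1_ag.CurvesOnRationalScrolls

open Pool.Agent.Y129.TA (Tilting)
open Pool.Agent.Y129.TB (BaseField IsConeOver Approximable DimLEOver)

/-- Q1 holds for every closed `X` of dimension at most `1` over a perfectoid field `K` which contains the
points `a(x) + y b(x)` with `P(x, y) = 0`, where `P` is irreducible over `C` and of degree at least `2` in `y`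
and the vectors `a` and `b` of polynomials over `K` are not proportional. -/
theorem result {p : ℕ} [Fact p.Prime] {C F K E : Type} [Field C] [Field F] [CharP F p] [Field K]
    [Field E] [Algebra K C] [Algebra E F] [IsAlgClosed C] [IsAlgClosed F] (T : Tilting p C F)
    (B : BaseField T K E) {n : ℕ} (a b : Fin (n + 1) → Polynomial K)
    (hab : ∃ i j, a i * b j ≠ a j * b i) (P : Polynomial (Polynomial K))
    (hP : Irreducible (P.map (Polynomial.mapRingHom (algebraMap K C)))) (hP2 : 2 ≤ P.natDegree)
    (X : Set (Fin (n + 1) → C)) (hX : IsConeOver K X) (hd : DimLEOver K X 1)
    (hXab : ∀ x y : C, (P.map (Polynomial.mapRingHom (algebraMap K C))).evalEval x y = 0 →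
      (fun i => Polynomial.aeval x (a i) + y * Polynomial.aeval x (b i)) ∈ X) :
    Approximable T.toTiltPair K E X 1 :=
  Pool.Agent.H20.HE.scrollM Pool.Agent.H20.HE.basisG Pool.Agent.H97.HE.limitM
    Pool.Agent.H20.HE.form T B P hP hP2 a b hab X hX hXab hd

end Pool.Agent.Results.MP_db3ab1_ag.CurvesOnRationalScrolls
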