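import Pool.Agent.H20.RG.Growth3

/-!
# Exact growth of the degrees of the hypersurfaces which approximate a given hypersurface

Let `K` be an algebraically closed perfectoid field of characteristic `0` with tilt `F`, and `X` a
hypersurface in `ℙ^n_K` given by a form `P` of degree `d > 0` which does not vanish at (at least) three
coordinate points `e_{i₀}, e_{i₁}, e_{i₂}`. Let `μ` be a bound for the intersection multiplicities of `X` and
the line through `e_{i₁}` and `e_{i₂}`, that is, for the multiplicities of the roots of the polynomial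
`P(e_{i₁} + t e_{i₂})` in `t` (`edge`); `μ = d` is always possible, and `μ = 1` if `X` and the line meet in `d`
different points.

Theorem. There is a constant `C` such that for all `j`: every hypersurface over `F` the image of which
under `π` lies in the neighbourhood of `X` of radius `|p| ^ (μ j)` has degree at least `p ^ j / (C (j + 1))`;
and there is a hypersurface over `F` of degree `C p ^ j` the image of which lies in the neighbourhood of
radius `|p| ^ j`. So the least degree grows like a power of the inverse of the radius, and if `X` meets the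
line in `d` different points then it is `p ^ j` for the radius `|p| ^ j`, up to a factor between
`1 / (C (j + 1))` and `C`.
-/

namespace Pool.Agent.Results.MP_db3ab1_ag.GrowthOfApproximationDegrees

open MvPolynomial Pool.Agent.Y129.TA Pool.Agent.H20.RG

/-- The restriction of `P` to the line through the coordinate points `e_{i₁}` and `e_{i₂}`: the polynomial
`P(e_{i₁} + t e_{i₂})` in the variable `t`. -/
noncomputable def edge {K : Type} [Field K] {n : ℕ} (P : MvPolynomial (Fin (n + 1)) K)
    (i₁ i₂ : Fin (n + 1)) : Polynomial K :=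
  aeval (fun i => if i = i₁ then 1 else if i = i₂ then Polynomial.X else 0) P

theorem result (p : ℕ) [Fact p.Prime] (K F : Type) [Field K] [Field F] [CharP F p]
    [IsAlgClosed K] [IsAlgClosed F] (T : Tilting p K F) (n d : ℕ) (hd : 0 < d)
    (P : MvPolynomial (Fin (n + 1)) K) (hP : P.IsHomogeneous d) (i₀ i₁ i₂ : Fin (n + 1))
    (h01 : i₀ ≠ i₁) (h02 : i₀ ≠ i₂) (h12 : i₁ ≠ i₂)
    (h0 : eval (Pi.single i₀ 1) P ≠ 0) (h1 : eval (Pi.single i₁ 1) P ≠ 0)
    (h2 : eval (Pi.single i₂ 1) P ≠ 0) (μ : ℕ) (hμ : ∀ z, (edge P i₁ i₂).rootMultiplicity z ≤ μ) :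
    ∃ C : ℕ, 0 < C ∧
      (∀ (j D : ℕ) (g : MvPolynomial (Fin (n + 1)) F), 0 < D → g.IsHomogeneous D →
        (∀ y, eval y g = 0 → T.InTube P d (T.absK p ^ (μ * j)) y) → p ^ j ≤ C * (j + 1) * D) ∧
      ∀ j : ℕ, ∃ g : MvPolynomial (Fin (n + 1)) F, g ≠ 0 ∧ g.IsHomogeneous (C * p ^ j) ∧
        ∀ y, eval y g = 0 → T.InTube P d (T.absK p ^ j) y := by
  classical
  have hq : 0 < T.absK p := T.absK.pos T.p_ne
  have hq1 := T.p_lt
  have hb : ∀ i : Fin (n + 1), (Pi.single i 1 : Fin (n + 1) → K) = bas K i := by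
    intro i
    funext k
    unfold bas
    rw [Pi.single_apply]
  rw [hb] at h0 h1 h2
  have hedge : edge P i₁ i₂ = line P (bas K i₁) (bas K i₂) := by
    unfold edge line
    congr 2
    funext i
    unfold bas
    by_cases hi1 : i = i₁
    · subst hi1
      simp [h12]
    · by_cases hi2 : i = i₂
      · subst hi2
        simp [hi1]
      · simp [hi1, hi2]
  rw [hedge] at hμ
  obtain ⟨c, C₁, hc, hC₁, hlow⟩ := growth_mult T hd hP h01 h02 h12 h0 h1 h2 hμ
  obtain ⟨C₂, hC₂, hup⟩ := growth_upper T hd hP (by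
    rintro rfl
    exact h0 (map_zero _))
  -- the multiplicity is positive
  have hμ1 : 1 ≤ μ := by
    have hQc := line_coeff hP (bas K i₁) (bas K i₂)
    have hQd : (line P (bas K i₁) (bas K i₂)).natDegree = d :=
      le_antisymm hQc.1 (Polynomial.le_natDegree_of_ne_zero (by rw [hQc.2]; exact h2))
    obtain ⟨z, hz⟩ := IsAlgClosed.exists_root (line P (bas K i₁) (bas K i₂)) (by
      intro h
      have h3 : (line P (bas K i₁) (bas K i₂)).natDegree = 0 :=
        Polynomial.natDegree_eq_of_degree_eq_some h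
      omega)
    have hne : line P (bas K i₁) (bas K i₂) ≠ 0 := by
      intro h
      rw [h, Polynomial.natDegree_zero] at hQd
      omega
    exact le_trans ((Polynomial.rootMultiplicity_pos hne).2 hz) (hμ z)
  obtain ⟨k₀, hk₀⟩ := exists_pow_lt_of_lt_one hc hq1
  obtain ⟨N, hN⟩ := exists_nat_ge (C₁ + 1)
  have hp1 : 1 ≤ p := (Fact.out : p.Prime).pos
  have hN0 : 0 < N := by
    have : (0 : ℝ) < N := by linarith
    exact_mod_cast this
  refine ⟨p ^ k₀ * N * C₂, Nat.mul_pos (Nat.mul_pos (pow_pos hp1 _) hN0) hC₂,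
    fun j D g hD hg htube => ?_, fun j => ?_⟩
  · have hR : (p : ℝ) ^ j ≤ (p : ℝ) ^ k₀ * N * (j + 1) * D := by
      have hD1 : (1 : ℝ) ≤ D := by exact_mod_cast hD
      have hj1 : (1 : ℝ) ≤ j + 1 := by linarith [show (0 : ℝ) ≤ j from Nat.cast_nonneg j]
      have hpR : (1 : ℝ) ≤ p := by exact_mod_cast hp1
      have hN1 : (1 : ℝ) ≤ N := by linarith
      rcases lt_or_ge j k₀ with hj | hj
      · have h3 : (p : ℝ) ^ j ≤ (p : ℝ) ^ k₀ := pow_le_pow_right₀ hpR hj.le
        have h4 : (1 : ℝ) ≤ N * ((j + 1) * D) :=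
          one_le_mul_of_one_le_of_one_le hN1 (one_le_mul_of_one_le_of_one_le hj1 hD1)
        calc (p : ℝ) ^ j ≤ (p : ℝ) ^ k₀ := h3
          _ ≤ (p : ℝ) ^ k₀ * (N * ((j + 1) * D)) :=
              le_mul_of_one_le_right (by positivity) h4
          _ = _ := by ring
      · obtain ⟨i, rfl⟩ := Nat.exists_eq_add_of_le hj
        have h3 : T.absK p ^ (μ * (k₀ + i)) ≤ c * T.absK p ^ (μ * i) := by
          rw [Nat.mul_add, pow_add]
          refine mul_le_mul_of_nonneg_right (le_trans ?_ hk₀.le) (by positivity)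
          exact pow_le_pow_of_le_one hq.le hq1.le (Nat.le_mul_of_pos_left _ hμ1)
        have h4 := hlow i D (T.absK p ^ (μ * (k₀ + i))) g (by positivity) h3 hD hg htube
        have hi0 : (0 : ℝ) ≤ i := Nat.cast_nonneg i
        have hk0 : (0 : ℝ) ≤ k₀ := Nat.cast_nonneg k₀
        push_cast
        calc (p : ℝ) ^ (k₀ + i) = (p : ℝ) ^ k₀ * (p : ℝ) ^ i := pow_add _ _ _
          _ ≤ (p : ℝ) ^ k₀ * (C₁ * (i + 1) * D) := mul_le_mul_of_nonneg_left h4 (by positivity)
          _ ≤ (p : ℝ) ^ k₀ * (N * (k₀ + i + 1) * D) := by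
              refine mul_le_mul_of_nonneg_left ?_ (by positivity)
              refine mul_le_mul_of_nonneg_right ?_ (by positivity)
              refine mul_le_mul (by linarith) (by linarith) (by positivity) (by positivity)
          _ = _ := by ring
    have hC₂R : (1 : ℝ) ≤ C₂ := by exact_mod_cast hC₂
    have h5 : (p : ℝ) ^ j ≤ ((p ^ k₀ * N * C₂ : ℕ) : ℝ) * (j + 1) * D := by
      push_cast
      refine hR.trans ?_
      calc (p : ℝ) ^ k₀ * N * (j + 1) * D ≤ ((p : ℝ) ^ k₀ * N * (j + 1) * D) * C₂ :=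
            le_mul_of_one_le_right (by positivity) hC₂R
        _ = _ := by ring
    exact_mod_cast h5
  · obtain ⟨g, hg0, hg, hgt⟩ := hup j
    refine ⟨g ^ (p ^ k₀ * N), pow_ne_zero _ hg0, ?_, fun y hy => hgt y ?_⟩
    · have h3 := hg.pow (p ^ k₀ * N)
      rwa [show C₂ * p ^ j * (p ^ k₀ * N) = p ^ k₀ * N * C₂ * p ^ j by ring] at h3
    · rw [map_pow] at hy
      by_contra h
      exact pow_ne_zero _ h hy

end Pool.Agent.Results.MP_db3ab1_ag.GrowthOfApproximationDegrees
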