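import Pool.Agent.H20.RG.Level

/-!
# Degrees of the hypersurfaces which approximate a hyperplane

For a hyperplane `H` of projective space over `K` with at least three nonzero coefficients, every
hypersurface of projective space over `F` whose image under `π` lies in the `ε`-neighbourhood of `H` has
degree divisible by `p ^ j` as soon as `ε` is less than a constant times `|p| ^ (j + 1 / (p - 1))`; and there
are such hypersurfaces of degree exactly `p ^ c` for `ε = |p| ^ (c + 1)`.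
-/

namespace Pool.Agent.Results.MP_db3ab1_ag.HyperplaneApproximationDegrees

open MvPolynomial Pool.Agent.Y129.TA Pool.Agent.H20.RG

theorem result (p : ℕ) [Fact p.Prime] (K F : Type) [Field K] [Field F] [CharP F p]
    [IsAlgClosed K] [IsAlgClosed F] (T : Tilting p K F) (n : ℕ) (a : Fin (n + 1) → K) :
    -- divisibility of the degrees
    (∀ (i₀ i₁ i₂ : Fin (n + 1)) (δ : ℝ), i₀ ≠ i₁ → i₀ ≠ i₂ → i₁ ≠ i₂ → 0 < δ →
      δ ≤ T.absK (a i₀) → δ ≤ T.absK (a i₁) → δ ≤ T.absK (a i₂) →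
      ∀ (g : MvPolynomial (Fin (n + 1)) F) (D j : ℕ) (ε : ℝ), g.IsHomogeneous D → 0 ≤ ε →
        (∀ y, eval y g = 0 → T.InTube (linForm a) 1 ε y) →
        (ε / δ) ^ (p - 1) < T.absK p ^ (j * (p - 1) + 1) → p ^ j ∣ D) ∧
    -- hypersurfaces of degree `p ^ c`
    ((∀ i, T.absK (a i) ≤ 1) → (∃ i, T.absK (a i) = 1) → ∀ c : ℕ,
      ∃ g : MvPolynomial (Fin (n + 1)) F, g ≠ 0 ∧ g.IsHomogeneous (p ^ c) ∧
        ∀ y, eval y g = 0 → T.InTube (linForm a) 1 (T.absK p ^ (c + 1)) y) ∧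
    -- the least degree
    ((∀ i, T.absK (a i) ≤ 1) →
      (∃ i₀ i₁ i₂ : Fin (n + 1), i₀ ≠ i₁ ∧ i₀ ≠ i₂ ∧ i₁ ≠ i₂ ∧ T.absK (a i₀) = 1 ∧
        T.absK (a i₁) = 1 ∧ T.absK (a i₂) = 1) →
      ∀ (c : ℕ) (ε : ℝ), T.absK p ^ (c + 1) ≤ ε → ε ^ (p - 1) < T.absK p ^ (c * (p - 1) + 1) →
        IsLeast {D : ℕ | 0 < D ∧ ∃ g : MvPolynomial (Fin (n + 1)) F, g ≠ 0 ∧ g.IsHomogeneous D ∧
          ∀ y, eval y g = 0 → T.InTube (linForm a) 1 ε y} (p ^ c)) := by
  have hupper : (∀ i, T.absK (a i) ≤ 1) → (∃ i, T.absK (a i) = 1) → ∀ c : ℕ,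
      ∃ g : MvPolynomial (Fin (n + 1)) F, g ≠ 0 ∧ g.IsHomogeneous (p ^ c) ∧
        ∀ y, eval y g = 0 → T.InTube (linForm a) 1 (T.absK p ^ (c + 1)) y := by
    classical
    rintro ha ⟨i₀, hi₀⟩ c
    have hlin : (linForm a).IsHomogeneous 1 := by
      unfold linForm
      refine IsHomogeneous.sum _ _ _ fun i _ => ?_
      have h1 := (isHomogeneous_C (Fin (n + 1)) (a i)).mul (isHomogeneous_X K i)
      rwa [zero_add] at h1
    have hint : ∀ α, T.absK (coeff α (linForm a)) ≤ 1 := by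
      intro α
      unfold linForm
      rw [coeff_sum]
      refine Pool.Agent.K7.H6.PT.ultra_sum' T.ultraK _ _ zero_le_one fun i _ => ?_
      rw [coeff_C_mul, coeff_X]
      split_ifs
      · rw [mul_one]; exact ha i
      · rw [mul_zero, map_zero]; exact zero_le_one
    obtain ⟨g, hg, hg2⟩ := approx_degree T hlin hint c
    rw [one_mul] at hg
    have hpp : 0 < T.absK p := T.absK.pos T.p_ne
    refine ⟨g, ?_, hg, fun y hy => tube_of_ball T hlin hg (by positivity) one_pos hg2 y hy⟩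
    rintro rfl
    have h1 := hg2 (fun i => if i = i₀ then 1 else 0) (fun i => by
      split_ifs
      · rw [map_one]
      · rw [map_zero]; exact zero_le_one) (map_zero _)
    rw [eval_linForm, Finset.sum_eq_single i₀] at h1
    · rw [if_pos rfl, map_one, mul_one, hi₀] at h1
      have h2 : T.absK p ^ (c + 1) < 1 := pow_lt_one₀ hpp.le T.p_lt (Nat.succ_ne_zero c)
      linarith
    · intro i _ hi
      rw [if_neg hi, T.sharp_zero, mul_zero]
    · intro h
      exact absurd (Finset.mem_univ _) h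
  refine ⟨?_, hupper, ?_⟩
  · intro i₀ i₁ i₂ δ h01 h02 h12 hδ h0 h1 h2 g D j ε hg hε htube hj
    exact hyper_lower T a h01 h02 h12 hδ h0 h1 h2 hg hε htube hj
  · rintro ha ⟨i₀, i₁, i₂, h01, h02, h12, h0, h1, h2⟩ c ε hε1 hε2
    have hpp : 0 < T.absK p := T.absK.pos T.p_ne
    have hε : 0 ≤ ε := (by positivity : (0 : ℝ) ≤ T.absK p ^ (c + 1)).trans hε1
    refine ⟨⟨pow_pos (Fact.out : p.Prime).pos c, ?_⟩, ?_⟩
    · obtain ⟨g, hg0, hg, hg2⟩ := hupper ha ⟨i₀, h0⟩ c
      refine ⟨g, hg0, hg, fun y hy B hB => (hg2 y hy B hB).trans ?_⟩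
      have hB0 : 0 ≤ B := (T.absF.nonneg _).trans (hB i₀)
      exact mul_le_mul_of_nonneg_right hε1 (by positivity)
    · rintro D ⟨hD, g, -, hg, htube⟩
      refine Nat.le_of_dvd hD (hyper_lower T a h01 h02 h12 one_pos h0.ge h1.ge h2.ge hg hε htube ?_)
      rw [div_one]
      exact hε2

end Pool.Agent.Results.MP_db3ab1_ag.HyperplaneApproximationDegrees
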